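import Pool.Agent.Helper95.AF.Defs
import Pool.Agent.Helper82.AN.Eta

/-! # Project AF, block NT: a finite net of parameters -/

set_option autoImplicit false
open MeasureTheory Real Set Filter Topology
open scoped ENNReal

namespace Pool.Agent.Helper21.AF

open Pool.Agent.Helper18.UC (nn)
open Pool.Agent.Helper46.QP (TT Td)
open Pool.Agent.Helper82.AN (Ow eta Hw sq)
open Pool.Agent.Helper95.AF

variable {d : ℕ}

/-- representatives in `[0, 1)` of a point of the circle -/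
private noncomputable def rp (x : UnitAddCircle) : ℝ := (AddCircle.equivIco (1 : ℝ) 0 x : ℝ)

private lemma rp_mem (x : UnitAddCircle) : 0 ≤ rp x ∧ rp x < 1 := by
  obtain ⟨h1, h2⟩ := (AddCircle.equivIco (1 : ℝ) 0 x).2
  exact ⟨h1, by unfold rp; linarith⟩

private lemma rp_coe (x : UnitAddCircle) : ((rp x : ℝ) : UnitAddCircle) = x :=
  AddCircle.coe_equivIco

private lemma dist_rp (x y : UnitAddCircle) : dist x y ≤ |rp x - rp y| := by
  rw [dist_eq_norm]
  have h : x - y = ((rp x - rp y : ℝ) : UnitAddCircle) := by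
    rw [AddCircle.coe_sub, rp_coe, rp_coe]
  rw [h, ← Real.norm_eq_abs]
  exact QuotientAddGroup.norm_mk_le_norm

/-- abstract net: one point of `S` in each nonempty cell -/
private lemma net_abs {X ι : Type*} [DecidableEq X] (S : Set X) (V : Finset ι) (g : X → ι) (hg : ∀ u ∈ S, g u ∈ V) :
    ∃ N : Finset X, N.card ≤ V.card ∧ ↑N ⊆ S ∧ ∀ u ∈ S, ∃ v ∈ N, g u = g v := by
  classical
  rcases isEmpty_or_nonempty X with hX | hX
  · exact ⟨∅, by simp, by simp, fun u _ => (hX.false u).elim⟩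
  have hch : ∀ c ∈ V.filter (fun c => ∃ u ∈ S, g u = c), ∃ u ∈ S, g u = c := fun c hc => (Finset.mem_filter.1 hc).2
  choose! p hp using hch
  refine ⟨(V.filter (fun c => ∃ u ∈ S, g u = c)).image p, ?_, ?_, ?_⟩
  · exact Finset.card_image_le.trans (Finset.card_filter_le _ _)
  · intro x hx
    rw [Finset.mem_coe, Finset.mem_image] at hx
    obtain ⟨c, hc, rfl⟩ := hx
    exact (hp c hc).1
  · intro u hu
    have hc : g u ∈ V.filter (fun c => ∃ u ∈ S, g u = c) := Finset.mem_filter.2 ⟨hg u hu, u, hu, rfl⟩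
    exact ⟨p (g u), Finset.mem_image.2 ⟨g u, hc, rfl⟩, (hp _ hc).2.symm⟩

/-- a net in the box of the parameters -/
private lemma net_box {k : ℕ} {R δ : ℝ} (hδ : 0 < δ) (hδ1 : δ ≤ 1) (hR : 1 ≤ R) (S : Set (ℝ × (Fin (k + 1) → ℝ) × Td d))
    (hS : ∀ u ∈ S, |u.1| ≤ R ∧ ∀ i, |u.2.1 i| ≤ R) :
    ∃ N : Finset (ℝ × (Fin (k + 1) → ℝ) × Td d), (N.card : ℝ) ≤ (5 * R / δ) ^ (k + 2 + d) ∧ ↑N ⊆ S ∧
      ∀ u ∈ S, ∃ v ∈ N, |u.1 - v.1| ≤ δ ∧ (∀ i, |u.2.1 i - v.2.1 i| ≤ δ) ∧ dist u.2.2 v.2.2 ≤ δ := by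
  classical
  set K : ℕ := ⌈R / δ⌉₊ with hK
  have hK1 : R / δ ≤ K := Nat.le_ceil _
  have hK2 : (K : ℝ) < R / δ + 1 := Nat.ceil_lt_add_one (by positivity)
  have hfl : ∀ x : ℝ, |x| ≤ R → ⌊x / δ⌋ ∈ Finset.Icc (-(K : ℤ)) (K : ℤ) := by
    intro x hx
    obtain ⟨e1, e2⟩ := abs_le.1 hx
    have e3 : x / δ ≤ K := (div_le_div_of_nonneg_right e2 hδ.le).trans hK1
    have e4 : -(K : ℝ) ≤ x / δ := by
      have e5 : -(R / δ) ≤ x / δ := by
        rw [← neg_div]
        exact div_le_div_of_nonneg_right e1 hδ.le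
      linarith
    rw [Finset.mem_Icc]
    constructor
    · rw [Int.le_floor]
      push_cast
      exact e4
    · have e6 : ((⌊x / δ⌋ : ℤ) : ℝ) ≤ K := (Int.floor_le _).trans e3
      exact_mod_cast e6
  have hcl : ∀ x y : ℝ, ⌊x / δ⌋ = ⌊y / δ⌋ → |x - y| ≤ δ := by
    intro x y h
    have e5 := Int.abs_sub_lt_one_of_floor_eq_floor h
    rw [← sub_div, abs_div, abs_of_pos hδ, div_lt_one hδ] at e5
    exact e5.le
  set V : Finset (ℤ × (Fin (k + 1) → ℤ) × (Fin d → ℤ)) :=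
    (Finset.Icc (-(K : ℤ)) (K : ℤ)) ×ˢ ((Fintype.piFinset fun _ : Fin (k + 1) => Finset.Icc (-(K : ℤ)) (K : ℤ)) ×ˢ
      (Fintype.piFinset fun _ : Fin d => Finset.Icc (-(K : ℤ)) (K : ℤ))) with hV
  have hcard : (V.card : ℝ) ≤ (5 * R / δ) ^ (k + 2 + d) := by
    have e1 : V.card = (2 * K + 1) ^ (k + 2 + d) := by
      rw [hV, Finset.card_product, Finset.card_product, Fintype.card_piFinset, Fintype.card_piFinset,
        Finset.prod_const, Finset.prod_const, Finset.card_univ, Finset.card_univ, Fintype.card_fin, Fintype.card_fin,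
        Int.card_Icc]
      have e2 : ((K : ℤ) + 1 - -(K : ℤ)).toNat = 2 * K + 1 := by omega
      rw [e2]
      ring
    rw [e1]
    push_cast
    refine pow_le_pow_left₀ (by positivity) ?_ _
    have e3 : (1 : ℝ) ≤ R / δ := by
      rw [le_div_iff₀ hδ]
      linarith
    have e4 : 5 * R / δ = 5 * (R / δ) := by ring
    rw [e4]
    linarith
  obtain ⟨N, h1, h2, h3⟩ := net_abs S V
    (fun u => (⌊u.1 / δ⌋, (fun i => ⌊u.2.1 i / δ⌋), (fun i => ⌊rp (u.2.2 i) / δ⌋))) (by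
      intro u hu
      obtain ⟨a1, a2⟩ := hS u hu
      rw [hV, Finset.mem_product, Finset.mem_product]
      refine ⟨hfl _ a1, ?_, ?_⟩
      · rw [Fintype.mem_piFinset]
        exact fun i => hfl _ (a2 i)
      · rw [Fintype.mem_piFinset]
        intro i
        refine hfl _ ?_
        have := rp_mem (u.2.2 i)
        rw [abs_of_nonneg this.1]
        linarith [this.2])
  refine ⟨N, ?_, h2, ?_⟩
  · refine le_trans ?_ hcard
    exact_mod_cast h1
  · intro u hu
    obtain ⟨v, hv, h4⟩ := h3 u hu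
    rw [Prod.mk.injEq, Prod.mk.injEq] at h4
    obtain ⟨b1, b2, b3⟩ := h4
    refine ⟨v, hv, hcl _ _ b1, fun i => hcl _ _ (congrFun b2 i), ?_⟩
    rw [dist_pi_le_iff hδ.le]
    exact fun i => (dist_rp _ _).trans (hcl _ _ (congrFun b3 i))

private lemma dist_td (x y : Td d) : dist x y ≤ 1 := by
  rw [dist_pi_le_iff zero_le_one]
  intro i
  refine (dist_rp _ _).trans ?_
  have h1 := rp_mem (x i)
  have h2 := rp_mem (y i)
  rw [abs_le]
  constructor <;> linarith

/-- common constants for the functions `e i` -/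
private lemma ho_common {k : ℕ} {e : Fin k → Td d → ℝ} (he : ∀ i, Ho (e i)) : ∃ B r : ℝ, 1 ≤ B ∧ 0 < r ∧ r ≤ 1 ∧
    (∀ i x, |e i x| ≤ B) ∧ ∀ i x y (t : ℝ), dist x y ≤ t → t ≤ 1 → |e i x - e i y| ≤ B * t ^ r := by
  choose K r hr hK using he
  have hsum0 : 0 ≤ ∑ i, (r i)⁻¹ := Finset.sum_nonneg fun i _ => (inv_pos.2 (hr i)).le
  have hr1 : ∀ i, (1 + ∑ i, (r i)⁻¹)⁻¹ ≤ r i := by
    intro i
    rw [inv_le_comm₀ (by linarith) (hr i)]
    have := Finset.single_le_sum (f := fun i => (r i)⁻¹) (fun i _ => (inv_pos.2 (hr i)).le) (Finset.mem_univ i)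
    linarith
  have hB1 : ∀ i, |K i| + |e i 0| ≤ ∑ i, (|K i| + |e i 0|) := fun i =>
    Finset.single_le_sum (f := fun i => |K i| + |e i 0|) (fun i _ => by positivity) (Finset.mem_univ i)
  refine ⟨1 + ∑ i, (|K i| + |e i 0|), (1 + ∑ i, (r i)⁻¹)⁻¹, ?_, inv_pos.2 (by linarith), ?_, ?_, ?_⟩
  · have : 0 ≤ ∑ i, (|K i| + |e i 0|) := Finset.sum_nonneg fun i _ => by positivity
    linarith
  · exact inv_le_one_of_one_le₀ (by linarith)
  · intro i x
    have e1 := hK i x 0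
    have e2 : K i * dist x 0 ^ r i ≤ |K i| := by
      have e3 : dist x 0 ^ r i ≤ 1 := Real.rpow_le_one dist_nonneg (dist_td x 0) (hr i).le
      have e4 : 0 ≤ dist x 0 ^ r i := Real.rpow_nonneg dist_nonneg _
      calc K i * dist x 0 ^ r i ≤ |K i| * dist x 0 ^ r i := mul_le_mul_of_nonneg_right (le_abs_self _) e4
        _ ≤ |K i| * 1 := mul_le_mul_of_nonneg_left e3 (abs_nonneg _)
        _ = |K i| := mul_one _
    have e5 : |e i x| ≤ |e i x - e i 0| + |e i 0| := by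
      have := abs_add_le (e i x - e i 0) (e i 0)
      rwa [sub_add_cancel] at this
    have := hB1 i
    linarith
  · intro i x y t h1 h2
    have ht0 : 0 ≤ t := dist_nonneg.trans h1
    have e1 := hK i x y
    have e4 : 0 ≤ dist x y ^ r i := Real.rpow_nonneg dist_nonneg _
    have hB0 : 0 ≤ |K i| := abs_nonneg _
    have hBK : |K i| ≤ 1 + ∑ i, (|K i| + |e i 0|) := by
      have := hB1 i
      have := abs_nonneg (e i 0)
      linarith
    rcases ht0.eq_or_lt with h0 | h0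
    · have hd : dist x y = 0 := le_antisymm (by rw [h0]; exact h1) dist_nonneg
      have hxy : x = y := dist_eq_zero.1 hd
      rw [hxy, sub_self, abs_zero]
      exact mul_nonneg (by linarith) (Real.rpow_nonneg ht0 _)
    · have e5 : dist x y ^ r i ≤ t ^ (1 + ∑ i, (r i)⁻¹)⁻¹ := by
        calc dist x y ^ r i ≤ t ^ r i := Real.rpow_le_rpow dist_nonneg h1 (hr i).le
          _ ≤ t ^ (1 + ∑ i, (r i)⁻¹)⁻¹ := Real.rpow_le_rpow_of_exponent_ge h0 h2 (hr1 i)
      calc |e i x - e i y| ≤ K i * dist x y ^ r i := e1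
        _ ≤ |K i| * dist x y ^ r i := mul_le_mul_of_nonneg_right (le_abs_self _) e4
        _ ≤ _ := mul_le_mul hBK e5 e4 (by linarith)

private lemma prod_diff {U U' x x' R δ M ε : ℝ} (hU : |U - U'| ≤ δ) (hU' : |U'| ≤ R) (hx : |x| ≤ M) (hxx : |x - x'| ≤ ε) :
    |U * x - U' * x'| ≤ δ * M + R * ε := by
  have h : U * x - U' * x' = (U - U') * x + U' * (x - x') := by ring
  rw [h]
  refine (abs_add_le _ _).trans ?_
  rw [abs_mul, abs_mul]
  exact add_le_add (mul_le_mul hU hx (abs_nonneg _) ((abs_nonneg _).trans hU))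
    (mul_le_mul hU' hxx (abs_nonneg _) ((abs_nonneg _).trans hU'))

/-- the force depends well on the parameters -/
private lemma frc_diff {γ : ℝ} {k : ℕ} {e : Fin k → Td d → ℝ} {B r : ℝ} (hB1 : ∀ i x, |e i x| ≤ B)
    (hB2 : ∀ i x y (t : ℝ), dist x y ≤ t → t ≤ 1 → |e i x - e i y| ≤ B * t ^ r) {w : Ow d} {H : ℝ} (hH : 0 ≤ H)
    (hw : Hw γ w ≤ ENNReal.ofReal H) (hw2 : ∀ x y, |eta γ w x - eta γ w y| ≤ H * dist x y)
    {U U' : Fin (k + 1) → ℝ} {R δ t : ℝ} (hU : ∀ i, |U i - U' i| ≤ δ) (hU' : ∀ i, |U' i| ≤ R) {x x' : Td d}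
    (hx : dist x x' ≤ t) (ht : t ≤ 1) :
    |frc γ e U w x - frc γ e U' w x'| ≤ k * (δ * B + R * (B * t ^ r)) + (δ * H + R * (H * t)) := by
  have hfin : Hw γ w ≠ ∞ := ne_top_of_le_ne_top ENNReal.ofReal_ne_top hw
  have h1 : |eta γ w x| ≤ H := by
    refine (Pool.Agent.Helper82.AN.eta_le hfin x).trans ?_
    exact ENNReal.toReal_le_of_le_ofReal hH hw
  have h2 : |eta γ w x - eta γ w x'| ≤ H * t := (hw2 x x').trans (mul_le_mul_of_nonneg_left hx hH)
  unfold frc
  have h3 : (∑ i : Fin k, U i.succ * e i x) + U 0 * eta γ w x - ((∑ i : Fin k, U' i.succ * e i x') + U' 0 * eta γ w x') =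
      (∑ i : Fin k, (U i.succ * e i x - U' i.succ * e i x')) + (U 0 * eta γ w x - U' 0 * eta γ w x') := by
    rw [Finset.sum_sub_distrib]
    ring
  rw [h3]
  refine (abs_add_le _ _).trans (add_le_add ?_ (prod_diff (hU 0) (hU' 0) h1 h2))
  refine (Finset.abs_sum_le_sum_abs _ _).trans ?_
  have h4 : ∀ i ∈ (Finset.univ : Finset (Fin k)), |U i.succ * e i x - U' i.succ * e i x'| ≤ δ * B + R * (B * t ^ r) :=
    fun i _ => prod_diff (hU _) (hU' _) (hB1 i x) (hB2 i x x' t hx ht)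
  refine (Finset.sum_le_sum h4).trans ?_
  rw [Finset.sum_const, Finset.card_univ, Fintype.card_fin, nsmul_eq_mul]

private lemma dist_orb (θ α α' : Td d) (j : ℕ) : dist (θ + j • α) (θ + j • α') ≤ j * dist α α' := by
  rw [dist_add_left, dist_eq_norm, dist_eq_norm, ← smul_sub]
  exact norm_nsmul_le

/-- **NT**: a finite net of parameters (from `pM_near`) -/
theorem net_ex_of
    (pM_near : ∃ C : ℝ, 1 ≤ C ∧ ∀ (Λ h : ℝ) (n : ℕ) (a a' : ℝ) (b b' : ℕ → ℝ), 1 ≤ Λ → |a| ≤ Λ → |a'| ≤ Λ →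
      0 ≤ h → |a - a'| ≤ h → (∀ j < n, |b j - b' j| ≤ h) → h * (C * Λ) ^ (C * (n + 1)) ≤ 1 →
      ∀ z, |Real.log (nn (pM a b n z)) - Real.log (nn (pM a' b' n z))| ≤ h * (C * Λ) ^ (C * (n + 1)))
    (γ : ℝ) {k : ℕ} {e : Fin k → Td d → ℝ} (he : ∀ i, Ho (e i)) : ∃ G : ℝ, 1 ≤ G ∧ ∀ (n : ℕ) (L : ℝ), 1 ≤ n → 1 ≤ L →
    ∀ A : Set (Td d), ∃ N : Finset (ℝ × (Fin (k + 1) → ℝ) × Td d), (N.card : ℝ) ≤ Real.exp (G * n * L) ∧ ↑N ⊆ Bx k L A ∧
      ∀ u ∈ Bx k L A, ∃ v ∈ N, ∀ w : Ow d, Hw γ w ≤ ENNReal.ofReal (Real.exp L) →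
        (∀ x y, |eta γ w x - eta γ w y| ≤ Real.exp L * dist x y) → ∀ (θ : Td d) (m m' : ℕ), m + m' ≤ n → ∀ z,
          |Real.log (nn (pM u.1 (shb (sq u.2.2 (frc γ e u.2.1 w) θ) m) m' z)) -
            Real.log (nn (pM v.1 (shb (sq v.2.2 (frc γ e v.2.1 w) θ) m) m' z))| ≤ 1 := by
  obtain ⟨C, hC, hnear⟩ := pM_near
  obtain ⟨B, r, hB, hr, hr1, hB1, hB2⟩ := ho_common he
  set G₁ : ℝ := 2 * C * (Real.log C + 2) with hG₁
  have hlC : 0 ≤ Real.log C := Real.log_nonneg hC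
  have hG₁0 : 0 ≤ G₁ := by positivity
  set E : ℝ := Real.log (2 * (k * B + 1)) with hE
  have hkB : (0:ℝ) ≤ k * B := by positivity
  have hE0 : 0 ≤ E := Real.log_nonneg (by linarith)
  set G₃ : ℝ := (G₁ + E + 4) / r with hG₃
  have hG₃1 : G₁ + E + 4 ≤ G₃ := by
    rw [hG₃, le_div_iff₀ hr]
    nlinarith
  have hG₃r : r * G₃ = G₁ + E + 4 := by
    rw [hG₃]
    field_simp
  refine ⟨(k + 2 + d : ℕ) * (5 + G₃), ?_, ?_⟩
  · have h1 : (1:ℝ) ≤ ((k + 2 + d : ℕ) : ℝ) := by
      have : 1 ≤ k + 2 + d := by omega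
      exact_mod_cast this
    nlinarith
  intro n L hn hL A
  have hn1 : (1:ℝ) ≤ n := by exact_mod_cast hn
  have hnL : (1:ℝ) ≤ n * L := by nlinarith
  have hnL2 : L ≤ n * L := by nlinarith
  have hnL3 : (n:ℝ) ≤ n * L := by nlinarith
  set R : ℝ := Real.exp (L + 1) with hR
  have hR1 : 1 ≤ R := Real.one_le_exp (by linarith)
  set δ : ℝ := Real.exp (-((1 + G₃) * (n * L))) with hδ
  have hδ0 : 0 < δ := Real.exp_pos _
  have hG₃0 : 0 ≤ G₃ := by linarith
  have hδ1 : δ ≤ 1 := Real.exp_le_one_iff.2 (neg_nonpos.2 (mul_nonneg (by linarith) (by linarith)))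
  obtain ⟨N, hN1, hN2, hN3⟩ := net_box (d := d) (k := k) hδ0 hδ1 hR1 (Bx k L A) (fun u hu => ⟨hu.2.1, hu.2.2.1⟩)
  refine ⟨N, hN1.trans ?_, hN2, ?_⟩
  · -- cardinality
    have h5 : (5:ℝ) ≤ Real.exp 2 := by
      have e1 : Real.exp 2 = Real.exp 1 * Real.exp 1 := by
        rw [← Real.exp_add]
        norm_num
      have e2 := Real.exp_one_gt_d9
      rw [e1]
      nlinarith
    have h6 : 5 * R / δ ≤ Real.exp (2 + (L + 1) + (1 + G₃) * (n * L)) := by
      rw [Real.exp_add, Real.exp_add, hδ, Real.exp_neg, div_inv_eq_mul]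
      refine mul_le_mul_of_nonneg_right ?_ (Real.exp_pos _).le
      exact mul_le_mul_of_nonneg_right h5 (Real.exp_pos _).le
    calc (5 * R / δ) ^ (k + 2 + d) ≤ (Real.exp (2 + (L + 1) + (1 + G₃) * (n * L))) ^ (k + 2 + d) :=
          pow_le_pow_left₀ (by positivity) h6 _
      _ = Real.exp (((k + 2 + d : ℕ) : ℝ) * (2 + (L + 1) + (1 + G₃) * (n * L))) := by
          rw [← Real.exp_nat_mul]
      _ ≤ _ := by
          refine Real.exp_le_exp.2 ?_
          rw [mul_assoc, mul_assoc]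
          refine mul_le_mul_of_nonneg_left ?_ (Nat.cast_nonneg _)
          nlinarith
  · intro u hu
    obtain ⟨v, hv, hv1, hv2, hv3⟩ := hN3 u hu
    refine ⟨v, hv, fun w hw hw2 θ m m' hm z => ?_⟩
    have hvB := hN2 hv
    -- the size of the error
    set t : ℝ := Real.exp (-(G₃ * (n * L))) with ht
    have ht0 : 0 < t := Real.exp_pos _
    have ht1 : t ≤ 1 := Real.exp_le_one_iff.2 (neg_nonpos.2 (mul_nonneg hG₃0 (by linarith)))
    have hδt : δ ≤ t := Real.exp_le_exp.2 (neg_le_neg (mul_le_mul_of_nonneg_right (by linarith) (by linarith)))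
    have hnδ : n * δ ≤ t := by
      have e1 : (n:ℝ) ≤ Real.exp (n * L) := by
        have := Real.add_one_le_exp ((n:ℝ) * L)
        linarith
      have e2 : δ = Real.exp (-(n * L)) * t := by
        rw [hδ, ht, ← Real.exp_add]
        congr 1
        ring
      rw [e2, Real.exp_neg]
      have e3 : 0 < Real.exp (n * L) := Real.exp_pos _
      calc (n:ℝ) * ((Real.exp (n * L))⁻¹ * t) ≤ Real.exp (n * L) * ((Real.exp (n * L))⁻¹ * t) :=
            mul_le_mul_of_nonneg_right e1 (by positivity)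
        _ = t := by
            field_simp
    have htr : t ≤ t ^ r := by
      calc t = t ^ (1:ℝ) := (Real.rpow_one t).symm
        _ ≤ t ^ r := Real.rpow_le_rpow_of_exponent_ge ht0 ht1 hr1
    have htr2 : t ^ r = Real.exp (-((G₁ + E + 4) * (n * L))) := by
      rw [ht, ← Real.exp_mul]
      congr 1
      rw [← hG₃r]
      ring
    have hHL : Real.exp L ≤ R := Real.exp_le_exp.2 (by linarith)
    have hHL1 : 1 ≤ Real.exp L := Real.one_le_exp (by linarith)
    set h : ℝ := Real.exp (-(G₁ * (n * L))) with hh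
    have hh0 : 0 < h := Real.exp_pos _
    have hfr : ∀ j < n, |frc γ e u.2.1 w (θ + j • u.2.2) - frc γ e v.2.1 w (θ + j • v.2.2)| ≤ h := by
      intro j hj
      have hj1 : dist (θ + j • u.2.2) (θ + j • v.2.2) ≤ t := by
        refine (dist_orb θ _ _ j).trans (le_trans ?_ hnδ)
        have : (j:ℝ) ≤ n := by exact_mod_cast hj.le
        exact mul_le_mul this hv3 dist_nonneg (by linarith)
      have e1 := frc_diff (γ := γ) (e := e) (B := B) (r := r) hB1 hB2 (w := w) (H := Real.exp L) (Real.exp_pos _).le hw hw2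
        (U := u.2.1) (U' := v.2.1) (R := R) (δ := δ) hv2 hvB.2.2.1 hj1 ht1
      refine e1.trans ?_
      have e2 : k * (δ * B + R * (B * t ^ r)) + (δ * Real.exp L + R * (Real.exp L * t)) ≤
          (2 * (k * B + 1)) * (R * R) * t ^ r := by
        have f0 : 0 < t ^ r := Real.rpow_pos_of_pos ht0 _
        have f1 : δ * B ≤ (R * R) * (B * t ^ r) := by
          have g1 : δ * B ≤ t ^ r * B := mul_le_mul_of_nonneg_right (hδt.trans htr) (by linarith)
          have g2 : 0 ≤ B * t ^ r := by positivity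
          have g3 : 1 * (B * t ^ r) ≤ (R * R) * (B * t ^ r) := mul_le_mul_of_nonneg_right (by nlinarith) g2
          linarith
        have f2 : R * (B * t ^ r) ≤ (R * R) * (B * t ^ r) := by
          have g2 : 0 ≤ B * t ^ r := by positivity
          exact mul_le_mul_of_nonneg_right (by nlinarith) g2
        have f3 : δ * Real.exp L ≤ (R * R) * t ^ r := by
          calc δ * Real.exp L ≤ t ^ r * R := mul_le_mul (hδt.trans htr) hHL (Real.exp_pos _).le f0.le
            _ ≤ (R * R) * t ^ r := by nlinarith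
        have f4 : R * (Real.exp L * t) ≤ (R * R) * t ^ r := by
          calc R * (Real.exp L * t) ≤ R * (R * t ^ r) :=
                mul_le_mul_of_nonneg_left (mul_le_mul hHL htr ht0.le (by linarith)) (by linarith)
            _ = (R * R) * t ^ r := by ring
        have f5 : (k:ℝ) * (δ * B + R * (B * t ^ r)) ≤ k * ((R * R) * (B * t ^ r) + (R * R) * (B * t ^ r)) :=
          mul_le_mul_of_nonneg_left (by linarith) (Nat.cast_nonneg _)
        have f6 : (k:ℝ) * ((R * R) * (B * t ^ r) + (R * R) * (B * t ^ r)) + ((R * R) * t ^ r + (R * R) * t ^ r) =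
            (2 * (k * B + 1)) * (R * R) * t ^ r := by ring
        linarith
      refine e2.trans ?_
      have e3 : 2 * (k * B + 1) = Real.exp E := (Real.exp_log (by linarith)).symm
      rw [e3, htr2, hR, hh, ← Real.exp_add, ← Real.exp_add, ← Real.exp_add]
      refine Real.exp_le_exp.2 ?_
      have e4 : E * 1 ≤ E * (n * L) := mul_le_mul_of_nonneg_left hnL hE0
      have e5 : (G₁ + E + 4) * (n * L) = G₁ * (n * L) + E * (n * L) + 4 * (n * L) := by ring
      rw [e5]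
      linarith
    have hCR : h * (C * R) ^ (C * ((m' : ℝ) + 1)) ≤ 1 := by
      have e1 : C * R = Real.exp (Real.log C + (L + 1)) := by
        rw [Real.exp_add, Real.exp_log (by linarith)]
      rw [e1, ← Real.exp_mul, hh, ← Real.exp_add]
      refine Real.exp_le_one_iff.2 ?_
      have e2 : (m' : ℝ) ≤ n := by
        have : m' ≤ n := by omega
        exact_mod_cast this
      have e3 : (m' : ℝ) + 1 ≤ 2 * n := by linarith
      have e4 : C * ((m' : ℝ) + 1) ≤ C * (2 * n) := mul_le_mul_of_nonneg_left e3 (by linarith)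
      have e5 : (Real.log C + (L + 1)) * (C * ((m' : ℝ) + 1)) ≤ ((Real.log C + 2) * L) * (C * (2 * n)) := by
        refine mul_le_mul ?_ e4 (by positivity) (by positivity)
        nlinarith
      have e6 : ((Real.log C + 2) * L) * (C * (2 * n)) = G₁ * (n * L) := by
        rw [hG₁]
        ring
      linarith
    have hδh : δ ≤ h := Real.exp_le_exp.2 (neg_le_neg (mul_le_mul_of_nonneg_right (by linarith) (by linarith)))
    have hfin := hnear R h m' u.1 v.1 (shb (sq u.2.2 (frc γ e u.2.1 w) θ) m) (shb (sq v.2.2 (frc γ e v.2.1 w) θ) m) hR1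
      hu.2.1 hvB.2.1 hh0.le (hv1.trans hδh) (fun j hj => hfr (j + m) (by omega)) hCR z
    exact hfin.trans hCR

end Pool.Agent.Helper21.AF
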