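import Pool.Agent.Helper21.AF.Net
import Pool.Agent.Helper4.AF.Near

/-! # Project AF, block NT: a finite net of parameters, without hypotheses -/

set_option autoImplicit false
open MeasureTheory Real Set Filter Topology
open scoped ENNReal

namespace Pool.Agent.Helper21.AF

open Pool.Agent.Helper18.UC (nn)
open Pool.Agent.Helper46.QP (TT Td)
open Pool.Agent.Helper82.AN (Ow eta Hw sq)
open Pool.Agent.Helper95.AF

variable {d : ℕ}

/-- **NT**: a finite net of parameters -/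
theorem net_ex (γ : ℝ) {k : ℕ} {e : Fin k → Td d → ℝ} (he : ∀ i, Ho (e i)) : ∃ G : ℝ, 1 ≤ G ∧ ∀ (n : ℕ) (L : ℝ), 1 ≤ n → 1 ≤ L →
    ∀ A : Set (Td d), ∃ N : Finset (ℝ × (Fin (k + 1) → ℝ) × Td d), (N.card : ℝ) ≤ Real.exp (G * n * L) ∧ ↑N ⊆ Bx k L A ∧
      ∀ u ∈ Bx k L A, ∃ v ∈ N, ∀ w : Ow d, Hw γ w ≤ ENNReal.ofReal (Real.exp L) →
        (∀ x y, |eta γ w x - eta γ w y| ≤ Real.exp L * dist x y) → ∀ (θ : Td d) (m m' : ℕ), m + m' ≤ n → ∀ z,
          |Real.log (nn (pM u.1 (shb (sq u.2.2 (frc γ e u.2.1 w) θ) m) m' z)) -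
            Real.log (nn (pM v.1 (shb (sq v.2.2 (frc γ e v.2.1 w) θ) m) m' z))| ≤ 1 :=
  net_ex_of Pool.Agent.Helper4.AF.pM_near γ he

end Pool.Agent.Helper21.AF
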